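import Pool.Agent.TMGrowth.Om01

/-!
The growth function of the Grigorchuk group `G_ω`, `ω = 010101...`, is at most
`exp (C n log log n / log n)`.
-/

set_option autoImplicit false

namespace Pool.Agent.Results.MP_fbbd83_al.LogUpperBound

open Pool.Agent.Results.MP_03d093_al.SphereBall Pool.Agent.H776R2.Grig Pool.Agent.H776R2.Om
open Pool.Agent.TMGrowth.Om01

theorem anti {x y : ℝ} (hx : Real.exp 1 ≤ x) (hxy : x ≤ y) :
    Real.log y / y ≤ Real.log x / x :=
  Real.log_div_self_antitoneOn hx (hx.trans hxy) hxy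

/-- the bound in terms of `N` -/
theorem bound_N (D : ℝ) (hD : 0 ≤ D) (N : ℝ) (hN0 : 0 < N) (hL : 3 * Real.exp 1 ≤ Real.log N) :
    ∃ j : ℕ, D * 3 ^ j + 14 * Real.log (j + 3) / (j + 3) * N ≤
      (2 * D + 42) * (N * Real.log (Real.log N) / Real.log N) := by
  set L := Real.log N with hLdef
  have he : 0 < Real.exp 1 := Real.exp_pos 1
  have he1 : (1 : ℝ) ≤ Real.exp 1 := Real.one_le_exp zero_le_one
  have hLpos : 0 < L := by linarith
  have hll : 1 ≤ Real.log L := by
    rw [Real.le_log_iff_exp_le hLpos]; linarith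
  have h3 : 0 < Real.log 3 := Real.log_pos (by norm_num)
  have h3' : Real.log 3 ≤ 3 / 2 := by
    rw [Real.log_le_iff_le_exp (by norm_num)]
    have h1 : (1 : ℝ) + 3 / 4 ≤ Real.exp (3 / 4) := by
      have := Real.add_one_le_exp (3 / 4 : ℝ); linarith
    have h2 : Real.exp (3 / 2) = Real.exp (3 / 4) * Real.exp (3 / 4) := by
      rw [← Real.exp_add]; norm_num
    rw [h2]
    nlinarith
  set j := ⌊L / (2 * Real.log 3)⌋₊ with hj
  refine ⟨j, ?_⟩
  have hj1 : (j : ℝ) ≤ L / (2 * Real.log 3) := Nat.floor_le (by positivity)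
  have hj2 : L / (2 * Real.log 3) < j + 1 := Nat.lt_floor_add_one _
  have hsq : (3 : ℝ) ^ j ≤ Real.exp (L / 2) := by
    have e1 : (3 : ℝ) ^ j = Real.exp (j * Real.log 3) := by
      rw [Real.exp_nat_mul, Real.exp_log (by norm_num)]
    rw [e1]
    apply Real.exp_le_exp.2
    have := mul_le_mul_of_nonneg_right hj1 h3.le
    have e : L / (2 * Real.log 3) * Real.log 3 = L / 2 := by field_simp
    linarith
  have hNexp : Real.exp (L / 2) * Real.exp (L / 2) = N := by
    rw [← Real.exp_add, add_halves, hLdef, Real.exp_log hN0]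
  have hL2 : L ≤ 2 * Real.exp (L / 2) := by
    have := Real.add_one_le_exp (L / 2); linarith
  have hsq2 : Real.exp (L / 2) ≤ 2 * (N / L) := by
    rw [← mul_div_assoc, le_div_iff₀ hLpos]
    calc Real.exp (L / 2) * L ≤ Real.exp (L / 2) * (2 * Real.exp (L / 2)) :=
          mul_le_mul_of_nonneg_left hL2 (Real.exp_pos _).le
      _ = 2 * N := by rw [← hNexp]; ring
  have hNL : 0 < N / L := by positivity
  have hNL1 : N / L ≤ N * Real.log L / L := by
    apply div_le_div_of_nonneg_right _ hLpos.le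
    nlinarith
  have ha : D * 3 ^ j ≤ 2 * D * (N * Real.log L / L) := by
    calc D * 3 ^ j ≤ D * (2 * (N / L)) := mul_le_mul_of_nonneg_left (hsq.trans hsq2) hD
      _ ≤ D * (2 * (N * Real.log L / L)) := by
          apply mul_le_mul_of_nonneg_left _ hD
          linarith
      _ = _ := by ring
  -- the second term
  have ht : L / 3 ≤ (j : ℝ) + 3 := by
    have h4 : L / 3 ≤ L / (2 * Real.log 3) := by
      apply div_le_div_of_nonneg_left hLpos.le (by positivity)
      linarith
    linarith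
  have hte : Real.exp 1 ≤ L / 3 := by linarith
  have hb1 := anti hte ht
  have hb2 : Real.log (L / 3) / (L / 3) ≤ 3 * (Real.log L / L) := by
    have h5 : Real.log (L / 3) ≤ Real.log L := Real.log_le_log (by positivity) (by linarith)
    have e : Real.log (L / 3) / (L / 3) = 3 * (Real.log (L / 3) / L) := by
      field_simp
    rw [e]
    apply mul_le_mul_of_nonneg_left _ (by norm_num)
    exact div_le_div_of_nonneg_right h5 hLpos.le
  have hb : 14 * Real.log (j + 3) / (j + 3) * N ≤ 42 * (N * Real.log L / L) := by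
    have h6 := hb1.trans hb2
    have h7 := mul_le_mul_of_nonneg_right h6 (by positivity : (0 : ℝ) ≤ 14 * N)
    have e1 : Real.log ((j : ℝ) + 3) / (j + 3) * (14 * N) = 14 * Real.log (j + 3) / (j + 3) * N := by
      ring
    have e2 : 3 * (Real.log L / L) * (14 * N) = 42 * (N * Real.log L / L) := by ring
    linarith
  linarith

/-- The growth function of `G_ω`, `ω = 010101...`, satisfies
`b(n) ≤ exp (C n log log n / log n)` for all large `n`. -/
theorem result : ∃ C : ℝ, 0 < C ∧ ∃ n₀ : ℕ, ∀ n : ℕ, n₀ ≤ n →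
    (ballO (fun k : ℕ => if k % 2 = 0 then 0 else 1) n : ℝ) ≤
      Real.exp (C * (n * Real.log (Real.log n) / Real.log n)) := by
  obtain ⟨D, hD, h⟩ := sys.explicit
  refine ⟨2 * (2 * D + 42), by positivity, ⌈Real.exp (3 * Real.exp 1)⌉₊, fun n hn => ?_⟩
  have hne : Real.exp (3 * Real.exp 1) ≤ n := Nat.ceil_le.1 hn
  have hn0 : (0 : ℝ) < n := (Real.exp_pos _).trans_le hne
  have he1 : (1 : ℝ) ≤ Real.exp 1 := Real.one_le_exp zero_le_one
  have hLn : 3 * Real.exp 1 ≤ Real.log n := (Real.le_log_iff_exp_le hn0).2 hne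
  have h2n : Real.log n ≤ Real.log (2 * n) := Real.log_le_log hn0 (by linarith)
  obtain ⟨j, hj⟩ := bound_N D hD (2 * n) (by positivity) (hLn.trans h2n)
  have h1 : (ballO (fun k : ℕ => if k % 2 = 0 then 0 else 1) n : ℝ) ≤ ((sys.S (2 * n)).card : ℝ) :=
    Nat.cast_le.2 (ballO_le n)
  have h2 := h j (2 * n)
  refine h1.trans (h2.trans (Real.exp_le_exp.2 ?_))
  push_cast at hj ⊢
  refine hj.trans ?_
  have hanti := anti (by linarith : Real.exp 1 ≤ Real.log n) h2n
  have h3 := mul_le_mul_of_nonneg_left hanti (by positivity : (0 : ℝ) ≤ (2 * D + 42) * (2 * n))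
  have e1 : (2 * D + 42) * (2 * (n : ℝ)) * (Real.log (Real.log (2 * n)) / Real.log (2 * n)) =
      (2 * D + 42) * (2 * n * Real.log (Real.log (2 * n)) / Real.log (2 * n)) := by ring
  have e2 : (2 * D + 42) * (2 * (n : ℝ)) * (Real.log (Real.log n) / Real.log n) =
      2 * (2 * D + 42) * (n * Real.log (Real.log n) / Real.log n) := by ring
  linarith

end Pool.Agent.Results.MP_fbbd83_al.LogUpperBound
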