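import Pool.Agent.H776R2.Om.Upper
import Pool.Agent.H776R2.Om.FinM
import Pool.Agent.TMGrowth.OmLow

/-!
Bounds for the growth of `G_ω` for arbitrary `ω`, and its growth up to a small distortion when the
gaps between the letters grow slowly.
-/

set_option autoImplicit false

namespace Pool.Agent.Results.MP_fbbd83_al.SlowGaps

open Pool.Agent.Results.MP_03d093_al.SphereBall Pool.Agent.H776R2.Grig Pool.Agent.H776R2.Om
open Pool.Agent.TMGrowth

/-- the bound with a lower bound `μ` for the weights of level `k` -/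
theorem general : ∃ C : ℝ, 0 < C ∧ ∀ (ω : Om) (k n : ℕ) (μ : ℝ), 0 < μ →
    (∀ x, μ ≤ (nn ω k x : ℝ)) →
    (ballO ω n : ℝ) ≤ Real.exp (C * 2 ^ k * ((n + ell ω k) / μ)) := by
  obtain ⟨D1, hD1t, hD1⟩ := ZO_unif
  have hT : 2 * D1 < ⊤ := ENNReal.mul_lt_top (by simp) hD1t
  obtain ⟨c, hcn, hc⟩ : ∃ c : ℝ, 0 ≤ c ∧ 2 * D1 ≤ ENNReal.ofReal (Real.exp c) := by
    refine ⟨(2 * D1).toReal, ENNReal.toReal_nonneg, ?_⟩
    rw [← ENNReal.ofReal_toReal hT.ne]
    apply ENNReal.ofReal_le_ofReal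
    rw [ENNReal.ofReal_toReal hT.ne]
    have := Real.add_one_le_exp (2 * D1).toReal
    linarith
  refine ⟨8 + c, by positivity, fun ω k n μ hμ hμx => ?_⟩
  have h2k : (0 : ℝ) < 2 ^ k := by positivity
  have hell : (0 : ℝ) < ell ω k := by exact_mod_cast ell_pos ω k
  have hμell : μ ≤ ell ω k := (hμx .b).trans (by exact_mod_cast nn_le_ell ω k .b)
  set s : ℝ := 4 / (μ / 2 ^ k) with hs
  have hs' : s = 4 * 2 ^ k / μ := by rw [hs]; field_simp
  have hs0 : 0 ≤ s := by positivity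
  set B : ℝ := 8 * (ell ω k / μ) with hBdef
  have hB0 : 0 ≤ B := by positivity
  have hB : 2 * s * ((ell ω k : ℝ) / 2 ^ k) ≤ B := by
    rw [hs', hBdef]
    apply le_of_eq
    field_simp
    ring
  have h1 := F_ball ω n s hs0
  have hiter := F_iter ω k s B hs0 hB k 0 (by omega)
  rw [shi_zero] at hiter
  have hk : ZO (shi k ω) (al ω k) s ≤ D1 := by
    apply hD1 (shi k ω) (al ω k) (μ / 2 ^ k) (al_tri ω k) (by positivity)
    intro x
    unfold al
    have := hμx x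
    gcongr
  have hDone : 1 ≤ 2 * ENNReal.ofReal (Real.exp B) := by
    have h1 : (1 : ENNReal) ≤ ENNReal.ofReal (Real.exp B) := by
      rw [ENNReal.one_le_ofReal]
      exact Real.one_le_exp hB0
    calc (1 : ENNReal) = 1 * 1 := by simp
      _ ≤ 2 * ENNReal.ofReal (Real.exp B) := by
          gcongr
          norm_num
  have h2 : ZO ω (al ω 0) s ≤ ENNReal.ofReal (Real.exp ((B + c) * 2 ^ k)) := by
    calc ZO ω (al ω 0) s = 1 * ZO ω (al ω 0) s := by simp
      _ ≤ 2 * ENNReal.ofReal (Real.exp B) * ZO ω (al ω 0) s := by gcongr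
      _ ≤ (2 * ENNReal.ofReal (Real.exp B) * ZO (shi k ω) (al ω k) s) ^ 2 ^ k := hiter
      _ ≤ (2 * ENNReal.ofReal (Real.exp B) * D1) ^ 2 ^ k := by gcongr
      _ = (ENNReal.ofReal (Real.exp B) * (2 * D1)) ^ 2 ^ k := by ring
      _ ≤ (ENNReal.ofReal (Real.exp B) * ENNReal.ofReal (Real.exp c)) ^ 2 ^ k := by gcongr
      _ = ENNReal.ofReal (Real.exp ((B + c) * 2 ^ k)) := by
          rw [← ENNReal.ofReal_mul (Real.exp_pos _).le, ← Real.exp_add,
            ← ENNReal.ofReal_pow (Real.exp_pos _).le, ← Real.exp_nat_mul]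
          congr 2
          push_cast
          ring
  have h4 : (ballO ω n : ENNReal) ≤ ENNReal.ofReal (Real.exp (s * n + (B + c) * 2 ^ k)) := by
    refine h1.trans ?_
    rw [Real.exp_add, ENNReal.ofReal_mul (Real.exp_pos _).le]
    gcongr
  rw [← ENNReal.ofReal_natCast] at h4
  have h5 := (ENNReal.ofReal_le_ofReal_iff (Real.exp_pos _).le).1 h4
  refine h5.trans (Real.exp_le_exp.2 ?_)
  have h6 : (1 : ℝ) ≤ ell ω k / μ := by rwa [one_le_div hμ]
  have h7 : c ≤ c * (ell ω k / μ) := by nlinarith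
  have h8 : (B + c) * 2 ^ k ≤ (8 + c) * 2 ^ k * (ell ω k / μ) := by
    have : B + c ≤ (8 + c) * (ell ω k / μ) := by rw [hBdef]; linarith
    calc (B + c) * 2 ^ k ≤ ((8 + c) * (ell ω k / μ)) * 2 ^ k :=
          mul_le_mul_of_nonneg_right this h2k.le
      _ = _ := by ring
  have h9 : s * n ≤ (8 + c) * 2 ^ k * (n / μ) := by
    rw [hs']
    have e : 4 * 2 ^ k / μ * (n : ℝ) = 4 * (2 ^ k * (n / μ)) := by ring
    have e2 : (8 + c) * 2 ^ k * (n / μ) = (8 + c) * (2 ^ k * (n / μ)) := by ring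
    rw [e, e2]
    exact mul_le_mul_of_nonneg_right (by linarith) (by positivity)
  have h10 : (8 + c) * 2 ^ k * ((n + ell ω k) / μ) =
      (8 + c) * 2 ^ k * (n / μ) + (8 + c) * 2 ^ k * (ell ω k / μ) := by ring
  linarith

/-- if the letter `x` was killed at time `j` and not later, then its weight is not much smaller
than the other weights -/
theorem ratio_aux (ω : Om) (x : V) (j : ℕ) (hj : kil (ω j) = x) (m : ℕ)
    (hm : ∀ i, j < i → i < j + 1 + m → kil (ω i) ≠ x) :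
    nn ω (j + 1 + m) x = 2 ^ m * (nn ω j .b + nn ω j .c + nn ω j .d) ∧
    ∀ y, nn ω (j + 1 + m) y ≤ (m + 1) * (2 ^ m * (nn ω j .b + nn ω j .c + nn ω j .d)) := by
  induction m with
  | zero =>
    have h0 : nn ω (j + 1) x = nn ω j .b + nn ω j .c + nn ω j .d := by
      simp only [nn]
      rw [if_pos hj.symm]
    refine ⟨by simpa using h0, fun y => ?_⟩
    have := M_tri ω j
    simp only [nn]
    split_ifs with h
    · simp
    · cases y <;> omega
  | succ m ih =>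
    obtain ⟨ih1, ih2⟩ := ih (fun i h1 h2 => hm i h1 (by omega))
    have hk := hm (j + 1 + m) (by omega) (by omega)
    have e : j + 1 + (m + 1) = (j + 1 + m) + 1 := by ring
    rw [e]
    generalize hN : j + 1 + m = N at *
    generalize hS : nn ω j .b + nn ω j .c + nn ω j .d = S at *
    have hx : nn ω (N + 1) x = 2 ^ (m + 1) * S := by
      simp only [nn]
      rw [if_neg (Ne.symm hk), ih1]
      ring
    refine ⟨hx, fun y => ?_⟩
    by_cases hy : y = kil (ω N)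
    · have ht := M_tri ω N
      have h1 : nn ω (N + 1) y ≤ 2 * nn ω N y + 2 * nn ω N x := by
        simp only [nn]
        rw [if_pos hy]
        have hne : y ≠ x := fun h => hk (hy.symm.trans h)
        cases y <;> cases x <;> first | exact absurd rfl hne | omega
      have h2 := ih2 y
      rw [ih1] at h1
      calc nn ω (N + 1) y ≤ 2 * nn ω N y + 2 * (2 ^ m * S) := h1
        _ ≤ 2 * ((m + 1) * (2 ^ m * S)) + 2 * (2 ^ m * S) := by omega
        _ = (m + 1 + 1) * (2 ^ (m + 1) * S) := by ring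
    · have h1 : nn ω (N + 1) y = 2 * nn ω N y := by
        simp only [nn]
        rw [if_neg hy]
      rw [h1]
      have h2 := ih2 y
      calc 2 * nn ω N y ≤ 2 * ((m + 1) * (2 ^ m * S)) := by omega
        _ = (m + 1) * (2 ^ (m + 1) * S) := by ring
        _ ≤ (m + 1 + 1) * (2 ^ (m + 1) * S) := Nat.mul_le_mul_right _ (by omega)

theorem ratio (ω : Om) (k r : ℕ) (x : V) (h : ∃ j, j < k ∧ k ≤ j + r ∧ kil (ω j) = x) :
    ell ω k ≤ r * nn ω k x := by
  classical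
  -- the last time
  obtain ⟨j0, hj0, hj0r, hj0x⟩ := h
  obtain ⟨j, hj, hjr, hjx, hlast⟩ : ∃ j, j < k ∧ k ≤ j + r ∧ kil (ω j) = x ∧
      ∀ i, j < i → i < k → kil (ω i) ≠ x := by
    have hP : ∃ j ≤ k, j < k ∧ j0 ≤ j ∧ kil (ω j) = x := ⟨j0, hj0.le, hj0, le_rfl, hj0x⟩
    set P : ℕ → Prop := fun j => j < k ∧ j0 ≤ j ∧ kil (ω j) = x with hPdef
    have hj0P : P j0 := ⟨hj0, le_rfl, hj0x⟩
    have h1 := Nat.findGreatest_spec (P := P) hj0.le hj0P
    obtain ⟨h2, h3, h4⟩ := h1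
    refine ⟨Nat.findGreatest P k, h2, by omega, h4, fun i hi hik hix => ?_⟩
    have := Nat.le_findGreatest (P := P) hik.le ⟨hik, by omega, hix⟩
    omega
  obtain ⟨m, rfl⟩ : ∃ m, k = j + 1 + m := ⟨k - (j + 1), by omega⟩
  obtain ⟨h1, h2⟩ := ratio_aux ω x j hjx m hlast
  refine M_ell_le _ _ _ fun y => ?_
  refine (h2 y).trans ?_
  rw [← h1]
  exact Nat.mul_le_mul_right _ (by omega)

/-- an upper bound for the growth of `G_ω` for all `ω` -/
theorem upper : ∃ C : ℝ, 0 < C ∧ ∀ ω : ℕ → Fin 3,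
    (∀ k n : ℕ, (ballO ω n : ℝ) ≤ Real.exp (C * 2 ^ k *
      ((n + ell ω k : ℕ) / (min (nn ω k .b) (min (nn ω k .c) (nn ω k .d)) : ℕ)))) ∧
    (∀ n r : ℕ, 1 ≤ n → (∀ x : Fin 3, ∃ j, j < kk ω n ∧ kk ω n ≤ j + r ∧ ω j = x) →
      (ballO ω n : ℝ) ≤ (FF ω n : ℝ) ^ (C * r)) := by
  obtain ⟨C, hC, h⟩ := general
  have hlog : 0 < Real.log 2 := Real.log_pos (by norm_num)
  have hlog1 : Real.log 2 ≤ 1 := by
    have := Real.log_le_sub_one_of_pos (show (0 : ℝ) < 2 by norm_num)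
    linarith
  refine ⟨2 * C / Real.log 2, by positivity, fun ω => ⟨fun k n => ?_, fun n r hn hr => ?_⟩⟩
  · have hmin : ∀ x, min (nn ω k .b) (min (nn ω k .c) (nn ω k .d)) ≤ nn ω k x := by
      intro x
      cases x
      · exact min_le_left _ _
      · exact (min_le_right _ _).trans (min_le_left _ _)
      · exact (min_le_right _ _).trans (min_le_right _ _)
    have hpos : 0 < min (nn ω k .b) (min (nn ω k .c) (nn ω k .d)) :=
      lt_min (nn_pos ω k .b) (lt_min (nn_pos ω k .c) (nn_pos ω k .d))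
    generalize min (nn ω k .b) (min (nn ω k .c) (nn ω k .d)) = μ at *
    have h1 := h ω k n μ (by exact_mod_cast hpos) (fun x => by exact_mod_cast hmin x)
    refine h1.trans (Real.exp_le_exp.2 ?_)
    have h2 : (0 : ℝ) ≤ 2 ^ k * ((n + ell ω k : ℕ) / (μ : ℕ)) := by positivity
    have h3 : C ≤ 2 * C / Real.log 2 := by
      rw [le_div_iff₀ hlog]
      nlinarith
    have h4 := mul_le_mul_of_nonneg_right h3 h2
    push_cast at h4 ⊢
    nlinarith
  · have hw : ∀ x : V, ell ω (kk ω n) ≤ r * nn ω (kk ω n) x := by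
      intro x
      apply ratio
      obtain ⟨f, hf⟩ := W_kil_surj x
      obtain ⟨j, h1, h2, h3⟩ := hr f
      exact ⟨j, h1, h2, by rw [h3, hf]⟩
    set k := kk ω n with hk
    have hnk : n ≤ ell ω k := M_kk_spec ω n
    obtain ⟨j, hjk, hjr, -⟩ := hr 0
    have hr0 : 0 < r := by omega
    have hr0' : (0 : ℝ) < r := by exact_mod_cast hr0
    have hell : (0 : ℝ) < ell ω k := by exact_mod_cast ell_pos ω k
    have h1 := h ω k n ((ell ω k : ℝ) / r) (by positivity) (fun x => by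
      rw [div_le_iff₀ hr0', mul_comm]
      exact_mod_cast hw x)
    refine h1.trans ?_
    have hF : (FF ω n : ℝ) = Real.exp (Real.log 2 * 2 ^ k) := by
      unfold FF
      rw [if_neg (by omega), ← hk]
      push_cast
      rw [← Real.rpow_natCast 2 (2 ^ k), Real.rpow_def_of_pos (by norm_num)]
      push_cast
      rfl
    rw [hF, ← Real.exp_mul]
    apply Real.exp_le_exp.2
    have h2 : ((n : ℝ) + ell ω k) / ((ell ω k : ℝ) / r) ≤ 2 * r := by
      rw [div_le_iff₀ (by positivity)]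
      have e : 2 * (r : ℝ) * ((ell ω k : ℝ) / r) = 2 * ell ω k := by field_simp
      rw [e]
      have : (n : ℝ) ≤ ell ω k := by exact_mod_cast hnk
      linarith
    have e : Real.log 2 * 2 ^ k * (2 * C / Real.log 2 * r) = C * 2 ^ k * (2 * r) := by
      field_simp
    rw [e]
    exact mul_le_mul_of_nonneg_left h2 (by positivity)

theorem kk_mono (ω : Om) {m n : ℕ} (h : m ≤ n) : kk ω m ≤ kk ω n := by
  apply Nat.sInf_le
  exact h.trans (M_kk_spec ω n)

theorem FF_mono (ω : Om) {m n : ℕ} (h : m ≤ n) : FF ω m ≤ FF ω n := by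
  unfold FF
  split_ifs with h1 h2
  · exact le_rfl
  · exact Nat.one_le_two_pow
  · omega
  · exact Nat.pow_le_pow_right (by norm_num)
      (Nat.pow_le_pow_right (by norm_num) (kk_mono ω h))

theorem kk_le (ω : Om) (n : ℕ) : kk ω n ≤ n := by
  apply Nat.sInf_le
  exact (Nat.lt_two_pow_self).le.trans (M_pow_le_ell ω n)

theorem ell_mono (ω : Om) : Monotone (ell ω) := by
  apply monotone_nat_of_le_succ
  intro i
  have := two_ell_le ω i
  omega

theorem kk_shift (ω : Om) (n c : ℕ) (hn : 0 < n) : kk ω n + c ≤ kk ω (3 ^ c * n) := by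
  by_contra hlt
  push Not at hlt
  have h1 := M_kk_spec ω (3 ^ c * n)
  have h3c : 0 < 3 ^ c := by positivity
  rcases Nat.lt_or_ge (kk ω (3 ^ c * n)) c with h2 | h2
  · have h4 := M_ell_add_le ω 0 (kk ω (3 ^ c * n))
    rw [zero_add, M_ell_zero, mul_one] at h4
    have h5 : 3 ^ kk ω (3 ^ c * n) < 3 ^ c := Nat.pow_lt_pow_right (by norm_num) h2
    have h6 : 3 ^ c ≤ 3 ^ c * n := Nat.le_mul_of_pos_right _ hn
    omega
  · have h4 := M_ell_add_le ω (kk ω (3 ^ c * n) - c) c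
    rw [show kk ω (3 ^ c * n) - c + c = kk ω (3 ^ c * n) by omega] at h4
    have h5 := M_kk_lt ω n (kk ω (3 ^ c * n) - c) (by omega)
    have h6 : 3 ^ c * ell ω (kk ω (3 ^ c * n) - c) < 3 ^ c * n :=
      Nat.mul_lt_mul_of_pos_left h5 h3c
    omega

theorem ell_kk_le (ω : Om) (n : ℕ) (hn : n ≠ 0) : ell ω (kk ω n) ≤ 3 * n := by
  rcases Nat.eq_zero_or_pos (kk ω n) with h0 | h0
  · rw [h0, M_ell_zero]
    omega
  · have h1 := M_kk_lt ω n (kk ω n - 1) (by omega)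
    have h2 := M_ell_succ_le ω (kk ω n - 1)
    rw [show kk ω n - 1 + 1 = kk ω n by omega] at h2
    omega

theorem up_r : ∃ c : ℕ → ℕ, ∀ (ω : Om) (n r : ℕ), 1 ≤ n →
    (∀ x : Fin 3, ∃ j, j < kk ω n ∧ kk ω n ≤ j + r ∧ ω j = x) →
    ballO ω n ≤ FF ω (3 ^ c r * n) := by
  obtain ⟨C, hC, h⟩ := upper
  choose c hc using fun r : ℕ => pow_unbounded_of_one_lt (C * r) (by norm_num : (1 : ℝ) < 2)
  refine ⟨c, fun ω n r hn hr => ?_⟩
  have h1 := (h ω).2 n r hn hr
  have hF1 : (1 : ℝ) ≤ FF ω n := by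
    have : FF ω 0 ≤ FF ω n := FF_mono ω (Nat.zero_le _)
    have h0 : FF ω 0 = 1 := by unfold FF; rw [if_pos rfl]
    rw [h0] at this
    exact_mod_cast this
  have h2 : (FF ω n : ℝ) ^ (C * r) ≤ ((FF ω n ^ 2 ^ c r : ℕ) : ℝ) := by
    have h3 := Real.rpow_le_rpow_of_exponent_le hF1 (hc r).le
    refine h3.trans (le_of_eq ?_)
    rw [Nat.cast_pow, ← Real.rpow_natCast (FF ω n : ℝ) (2 ^ c r), Nat.cast_pow, Nat.cast_ofNat]
  have h3 : ballO ω n ≤ FF ω n ^ 2 ^ c r := by exact_mod_cast h1.trans h2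
  refine h3.trans ?_
  have h4 := kk_shift ω n (c r) hn
  have h5 : 3 ^ c r * n ≠ 0 := by positivity
  unfold FF
  rw [if_neg (by omega), if_neg h5, ← pow_mul, ← pow_add]
  exact Nat.pow_le_pow_right (by norm_num) (Nat.pow_le_pow_right (by norm_num) h4)

open Filter in
theorem slow : ∀ φ : ℕ → ℕ, Tendsto φ atTop atTop → ∃ ρ : ℕ → ℕ, Monotone ρ ∧
    Tendsto ρ atTop atTop ∧ ∀ ω : ℕ → Fin 3,
      (∃ n₀ : ℕ, ∀ n, n₀ ≤ n → ∀ x : Fin 3, ∃ i, i < ρ n ∧ ω (n + i) = x) →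
      ∃ n₁ : ℕ, ∀ n, n₁ ≤ n → FF ω (n / φ n) ≤ ballO ω n ∧ ballO ω n ≤ FF ω (n * φ n) := by
  classical
  intro φ hφ
  obtain ⟨c, hc⟩ := up_r
  choose A hA using OmLow.lower_scale
  set B : ℕ → ℕ := fun s => ∑ t ∈ Finset.range (s + 1), (3 * A t + 3 ^ c t) with hB
  have hBA : ∀ s, 3 * A s ≤ B s ∧ 3 ^ c s ≤ B s := by
    intro s
    have h1 : 3 * A s + 3 ^ c s ≤ B s :=
      Finset.single_le_sum (f := fun t => 3 * A t + 3 ^ c t) (fun _ _ => Nat.zero_le _)
        (Finset.mem_range.2 (Nat.lt_succ_self s))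
    exact ⟨(Nat.le_add_right _ _).trans h1, (Nat.le_add_left _ _).trans h1⟩
  set σ : ℕ → ℕ := fun k => Nat.findGreatest (fun s => ∀ n, k ≤ n → B s ≤ φ n) k with hσ
  have hσk : ∀ k, σ k ≤ k := fun k => Nat.findGreatest_le k
  have hσm : Monotone σ := by
    intro k k' hkk
    by_cases h0 : σ k = 0
    · rw [h0]; exact Nat.zero_le _
    · have h1 : ∀ n, k ≤ n → B (σ k) ≤ φ n :=
        Nat.findGreatest_of_ne_zero (P := fun s => ∀ n, k ≤ n → B s ≤ φ n) rfl h0
      exact Nat.le_findGreatest ((hσk k).trans hkk) (fun n hn => h1 n (hkk.trans hn))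
  have hσP : ∀ s, ∃ K, ∀ k, K ≤ k → s ≤ σ k ∧ ∀ n, k ≤ n → B (σ k) ≤ φ n := by
    intro s
    obtain ⟨K, hK⟩ := Filter.eventually_atTop.1 (hφ.eventually (eventually_ge_atTop (B s)))
    refine ⟨max K s, fun k hk => ?_⟩
    have hP : ∀ n, k ≤ n → B s ≤ φ n := fun n hn =>
      hK n ((le_max_left _ _).trans (hk.trans hn))
    have hsk : s ≤ k := (le_max_right _ _).trans hk
    exact ⟨Nat.le_findGreatest hsk hP,
      Nat.findGreatest_spec (P := fun s => ∀ n, k ≤ n → B s ≤ φ n) hsk hP⟩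
  refine ⟨fun n => σ ((n - 8) / 5), fun a b hab => hσm (by omega), ?_, ?_⟩
  · rw [tendsto_atTop]
    intro s
    obtain ⟨K, hK⟩ := hσP s
    filter_upwards [eventually_ge_atTop (5 * K + 8)] with n hn
    exact (hK _ (by omega)).1
  · rintro ω ⟨n₀, hω⟩
    obtain ⟨k₁, hk₁⟩ := hσP (n₀ + σ ((n₀ - 8) / 5))
    -- all windows
    have hwin : ∀ k, k₁ ≤ k → ∀ n, n + σ k ≤ k + 4 * σ k + 8 → ∀ x : Fin 3,
        ∃ i, i < σ k ∧ ω (n + i) = x := by
      intro k hk n hn x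
      have h1 := (hk₁ k hk).1
      have h2 := hσk k
      rcases Nat.lt_or_ge n n₀ with h | h
      · obtain ⟨i, hi, hx⟩ := hω n₀ le_rfl x
        have hi' : i < σ ((n₀ - 8) / 5) := hi
        refine ⟨n₀ - n + i, by omega, ?_⟩
        rw [show n + (n₀ - n + i) = n₀ + i by omega, hx]
      · obtain ⟨i, hi, hx⟩ := hω n h x
        refine ⟨i, hi.trans_le (hσm (by omega)), hx⟩
    have hlow : ∀ k, k₁ ≤ k → 2 ^ 2 ^ k ≤ ballO ω (A (σ k) * ell ω k) := fun k hk =>
      hA (σ k) ω k (hwin k hk)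
    refine ⟨max (ell ω k₁ + 1) (A (σ k₁) * ell ω k₁), fun n hn => ⟨?_, ?_⟩⟩
    · have hn1 : A (σ k₁) * ell ω k₁ ≤ n := (le_max_right _ _).trans hn
      by_cases hm : n / φ n = 0
      · rw [hm]
        have h0 : FF ω 0 = 1 := by unfold FF; rw [if_pos rfl]
        rw [h0, ← ballO_zero ω]
        exact ballO_mono ω (Nat.zero_le _)
      · set m := n / φ n with hmdef
        unfold FF
        rw [if_neg hm]
        rcases Nat.lt_or_ge (kk ω m) k₁ with h | h
        · have h1 : 2 ^ 2 ^ kk ω m ≤ 2 ^ 2 ^ k₁ :=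
            Nat.pow_le_pow_right (by norm_num) (Nat.pow_le_pow_right (by norm_num) h.le)
          exact h1.trans ((hlow k₁ le_rfl).trans (ballO_mono ω hn1))
        · refine (hlow _ h).trans (ballO_mono ω ?_)
          have h1 := ell_kk_le ω m hm
          have hmn : m ≤ n := Nat.div_le_self _ _
          have h2 := (hk₁ _ h).2 n ((kk_le ω m).trans hmn)
          have h3 := (hBA (σ (kk ω m))).1
          calc A (σ (kk ω m)) * ell ω (kk ω m) ≤ A (σ (kk ω m)) * (3 * m) :=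
                Nat.mul_le_mul_left _ h1
            _ = (3 * A (σ (kk ω m))) * m := by ring
            _ ≤ φ n * m := Nat.mul_le_mul_right _ (h3.trans h2)
            _ ≤ n := Nat.mul_div_le n (φ n)
    · have hn1 : ell ω k₁ + 1 ≤ n := (le_max_left _ _).trans hn
      have hkn : k₁ ≤ kk ω n := by
        by_contra hlt
        push Not at hlt
        have h1 := M_kk_spec ω n
        have h2 := ell_mono ω hlt.le
        omega
      have h1 := hc ω n (σ (kk ω n)) (by omega) (fun x => by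
        have h2 := hσk (kk ω n)
        obtain ⟨i, hi, hx⟩ := hwin (kk ω n) hkn (kk ω n - σ (kk ω n)) (by omega) x
        exact ⟨kk ω n - σ (kk ω n) + i, by omega, by omega, hx⟩)
      refine h1.trans (FF_mono ω ?_)
      have h2 := (hk₁ _ hkn).2 n (kk_le ω n)
      have h3 := (hBA (σ (kk ω n))).2
      rw [mul_comm n]
      exact Nat.mul_le_mul_right _ (h3.trans h2)

/-- **The growth of `G_ω` beyond homogeneous sequences.** -/
theorem result :
    (∃ C : ℝ, 0 < C ∧ ∀ ω : ℕ → Fin 3,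
      (∀ k n : ℕ, (ballO ω n : ℝ) ≤ Real.exp (C * 2 ^ k *
        ((n + ell ω k : ℕ) / (min (nn ω k .b) (min (nn ω k .c) (nn ω k .d)) : ℕ)))) ∧
      (∀ n r : ℕ, 1 ≤ n → (∀ x : Fin 3, ∃ j, j < kk ω n ∧ kk ω n ≤ j + r ∧ ω j = x) →
        (ballO ω n : ℝ) ≤ (FF ω n : ℝ) ^ (C * r))) ∧
    (∀ r : ℕ, ∃ A : ℕ, ∀ (ω : ℕ → Fin 3) (k : ℕ),
      (∀ n, n + r ≤ k + 4 * r + 8 → ∀ x : Fin 3, ∃ i, i < r ∧ ω (n + i) = x) →
      2 ^ 2 ^ k ≤ ballO ω (A * ell ω k)) ∧
    (∀ φ : ℕ → ℕ, Filter.Tendsto φ Filter.atTop Filter.atTop → ∃ ρ : ℕ → ℕ, Monotone ρ ∧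
      Filter.Tendsto ρ Filter.atTop Filter.atTop ∧ ∀ ω : ℕ → Fin 3,
      (∃ n₀ : ℕ, ∀ n, n₀ ≤ n → ∀ x : Fin 3, ∃ i, i < ρ n ∧ ω (n + i) = x) →
      ∃ n₁ : ℕ, ∀ n, n₁ ≤ n → FF ω (n / φ n) ≤ ballO ω n ∧ ballO ω n ≤ FF ω (n * φ n)) :=
  ⟨upper, OmLow.lower_scale, slow⟩

end Pool.Agent.Results.MP_fbbd83_al.SlowGaps
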